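import Pool.Agent.Lib_helper30.GSC.Bass2
import Pool.Agent.Lib_helper30.GSC.Summ2

set_option autoImplicit false

/-!
# MP_b750b1_al, BettiGrowth

Q1 holds for the algebras whose Betti numbers do not tend to infinity, and for the algebras whose
late syzygies of the top are direct sums of modules of bounded length; growth of the injective
resolutions in a counterexample.
-/

namespace Pool.Agent.Results.MP_b750b1_al.BettiGrowth

open CategoryTheory Pool.Agent.GSC

universe u

/-- The injective dimension of the left module `A` over `A`. -/
noncomputable def idLeft (A : Type u) [Ring A] : WithBot ℕ∞ :=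
  injectiveDimension (ModuleCat.of A A)

/-- The injective dimension of the right module `A` over `A`. -/
noncomputable def idRight (A : Type u) [Ring A] : WithBot ℕ∞ :=
  injectiveDimension (ModuleCat.of Aᵐᵒᵖ A)

/-- The left module `A / rad A`. -/
def top (A : Type u) [Ring A] : ModuleCat.{u} A :=
  ModuleCat.of A (A ⧸ Ring.jacobson A)

section

variable {A : Type u} [Ring A] {M : ModuleCat.{u} A}

/-- The term of degree `i` of a projective resolution. -/
noncomputable def pTerm (P : ProjectiveResolution M) (i : ℕ) : ModuleCat.{u} A :=
  P.complex.X i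

/-- The kernel of the differential from degree `i + 1` to degree `i` of a projective
resolution. -/
noncomputable def pKer (P : ProjectiveResolution M) (i : ℕ) : Submodule A (pTerm P (i + 1)) :=
  LinearMap.ker (P.complex.d (i + 1) i).hom

/-- The term of degree `i` of an injective resolution. -/
noncomputable def iTerm (I : InjectiveResolution M) (i : ℕ) : ModuleCat.{u} A :=
  I.cocomplex.X i

/-- The kernel of the differential from degree `i` to degree `i + 1` of an injective
resolution. -/
noncomputable def iKer (I : InjectiveResolution M) (i : ℕ) : Submodule A (iTerm I i) :=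
  LinearMap.ker (I.cocomplex.d i (i + 1)).hom

/-- All terms are finitely generated. -/
def PFin (P : ProjectiveResolution M) : Prop := ∀ i, Module.Finite A (pTerm P i)

/-- All terms are finitely generated. -/
def IFin (I : InjectiveResolution M) : Prop := ∀ i, Module.Finite A (iTerm I i)

/-- In some degree `i ≥ m` the term has length at most `c`. -/
def PShort (P : ProjectiveResolution M) (m c : ℕ) : Prop :=
  ∃ i, m ≤ i ∧ Module.length A (pTerm P i) ≤ c

/-- For some `i ≥ m` the kernel of the differential from degree `i + 1` to degree `i` is a direct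
sum of submodules of length at most `c`. -/
def PSum (P : ProjectiveResolution M) (m c : ℕ) : Prop :=
  ∃ i, m ≤ i ∧ SumOfShort A c (pKer P i)

/-- In some degree `i ≥ m` the term has length at most `c` or the kernel of the differential is
a direct sum of submodules of length at most `c`. -/
def IShort (I : InjectiveResolution M) (m c : ℕ) : Prop :=
  ∃ i, m ≤ i ∧ (Module.length A (iTerm I i) ≤ c ∨ SumOfShort A c (iKer I i))

end

theorem result (n c : ℕ) : ∃ m : ℕ, ∀ (k A : Type u) [Field k] [Ring A] [Algebra k A]
    [Module.Finite k A], Module.finrank k A = n →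
      (∀ P : ProjectiveResolution (top A), PFin P →
        (PShort P m c → (idLeft A = ⊤ ↔ idRight A = ⊤)) ∧
        (PSum P m c → idLeft A ≠ ⊤ → idRight A ≠ ⊤)) ∧
      (idRight A ≠ ⊤ → ∀ M : ModuleCat.{u} A, Module.Finite A M → projectiveDimension M ≠ ⊤ →
        ∀ I : InjectiveResolution M, IFin I → IShort I m c → injectiveDimension M ≠ ⊤) := by
  obtain ⟨m1, h1⟩ := betti_final.{u} n c
  obtain ⟨m2, h2⟩ := bass_final.{u} n c
  obtain ⟨m3, h3⟩ := syz_final.{u} n c
  refine ⟨max m1 (max m2 m3), fun k A _ _ _ _ hA => ⟨fun P hP => ⟨?_, ?_⟩, ?_⟩⟩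
  · rintro ⟨i, hi, hc⟩
    exact h1 k A hA P hP i (by omega) hc
  · rintro ⟨i, hi, hc⟩ hL
    exact h3 k A hA hL P hP i (by omega) hc
  · rintro hR M hMf hM I hI ⟨i, hi, h⟩
    exact h2 k A hA hR M hM I hI i (by omega) h

end Pool.Agent.Results.MP_b750b1_al.BettiGrowth
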