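import Pool.Agent.Lib_helper30.GSC.Alike

set_option autoImplicit false

/-!
# MP_b750b1_al, FiniteAlgebras

The pairs of self-injective dimensions of the algebras of dimension `d` over the fields of
characteristic `p > 0` are those of the finite algebras of dimension `d` over the finite fields of
characteristic `p`. They are the same for all but finitely many `p` and for characteristic `0`.
-/

namespace Pool.Agent.Results.MP_b750b1_al.FiniteAlgebras

open CategoryTheory

/-- The injective dimension of the left module `A` over `A`. -/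
noncomputable def idLeft.{u} (A : Type u) [Ring A] : WithBot ℕ∞ :=
  injectiveDimension (ModuleCat.of A A)

/-- The injective dimension of the right module `A` over `A`. -/
noncomputable def idRight.{u} (A : Type u) [Ring A] : WithBot ℕ∞ :=
  injectiveDimension (ModuleCat.of Aᵐᵒᵖ A)

theorem result.{u} (d : ℕ) : ∃ m N : ℕ, N ≠ 0 ∧ ∀ (K A : Type u) [Field K] [Ring A]
    [Algebra K A] [Module.Finite K A], Module.finrank K A = d →
      (idLeft A = ⊤ ∨ idLeft A ≤ m) ∧ (idRight A = ⊤ ∨ idRight A ≤ m) ∧
      ∀ r p : ℕ, CharP K r →
        (p = r ∨ (r = 0 ∨ ¬ r ∣ N) ∧ (p = 0 ∨ p.Prime ∧ ¬ p ∣ N)) →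
        ∃ (F B : Type) (_ : Field F) (_ : Ring B) (_ : Algebra F B),
          CharP F p ∧ (p ≠ 0 → Finite F) ∧ Module.Finite F B ∧ Module.finrank F B = d ∧
          idLeft B = idLeft A ∧ idRight B = idRight A :=
  Pool.Agent.GSC.alike d

end Pool.Agent.Results.MP_b750b1_al.FiniteAlgebras
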