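import Pool.Agent.Lib_helper54.GRS.Res

set_option autoImplicit false

/-!
# MP_b750b1_al, RigidSyzygy

Let `id(_A A) ≤ n`. Then `id(A_A) ≤ n` if and only if every indecomposable projective left module
has an injective resolution by finitely generated modules whose terms of degree at most `n` have
finite projective dimension up to at most two neighbouring exceptions, or satisfy certain
vanishing conditions for Ext.
-/

namespace Pool.Agent.Results.MP_b750b1_al.RigidSyzygy

open CategoryTheory Pool.Agent.RigidSyzygy Pool.Agent.Lib_helper54

universe u

/-- The injective dimension of the left module `A` over `A`. -/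
noncomputable def idLeft (A : Type u) [Ring A] : WithBot ℕ∞ :=
  injectiveDimension (ModuleCat.of A A)

/-- The injective dimension of the right module `A` over `A`. -/
noncomputable def idRight (A : Type u) [Ring A] : WithBot ℕ∞ :=
  injectiveDimension (ModuleCat.of Aᵐᵒᵖ A)

theorem result (k A : Type u) [Field k] [Ring A] [Algebra k A] [Module.Finite k A] (n : ℕ)
    (hA : idLeft A ≤ n) :
    idRight A ≤ n ↔ ∀ Q : ModuleCat.{u} A, Module.Finite A Q → Projective Q →
      Indecomposable Q → ∃ I : InjectiveResolution Q, IFin I ∧ (Near n I ∨ Far n I) := by
  constructor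
  · intro hR Q hQ _ _
    obtain ⟨I, hI⟩ := GRS.exists_res k Q hQ
    exact ⟨I, hI, Or.inl (GRS.converse k A n ((injectiveDimension_le_iff _ n).mp hR) I hI).1⟩
  · intro h
    exact (injectiveDimension_le_iff _ n).mpr
      (GRS.main k A n ((injectiveDimension_le_iff _ n).mp hA) h)

end Pool.Agent.Results.MP_b750b1_al.RigidSyzygy
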