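import Pool.Agent.Lib_helper21.SB.Cycle
import Pool.Agent.Lib_helper21.SB.Dict

set_option autoImplicit false

/-!
# MP_b750b1_al, SchroederBernstein

The Gorenstein symmetry conjecture for the finite-dimensional algebras over a field `k` is
equivalent to the Schroeder-Bernstein property of partial cotilting modules: every cycle of
partial cotilting modules consists of cotilting modules.
-/

namespace Pool.Agent.Results.MP_b750b1_al.SchroederBernstein

open CategoryTheory MulOpposite Pool.Agent.Lib_helper21.SB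

/-- The Gorenstein symmetry conjecture for the finite-dimensional `k`-algebras. -/
def GSC.{u} (k : Type u) [Field k] : Prop :=
  ∀ (A : Type u) [Ring A] [Algebra k A] [Module.Finite k A], idLeft A = ⊤ ↔ idRight A = ⊤

/-- Every partial cotilting module `M` over a finite-dimensional `k`-algebra `S` with
`End_S(M)^op ≃ S` is cotilting. -/
def SBOne.{u} (k : Type u) [Field k] : Prop :=
  ∀ (S M : Type u) [Ring S] [Algebra k S] [Module.Finite k S] [AddCommGroup M] [Module k M]
    [Module S M] [IsScalarTower k S M] [Module.Finite S M], PartialCotilting S M →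
    Nonempty (S ≃ₐ[k] (Module.End S M)ᵐᵒᵖ) → Cotilting S M

/-- Every cycle of partial cotilting modules over finite-dimensional `k`-algebras consists of
cotilting modules. -/
def SBCycle.{u} (k : Type u) [Field k] : Prop :=
  ∀ (r : ℕ) (S M : Fin r → Type u) [∀ i, Ring (S i)] [∀ i, Algebra k (S i)]
    [∀ i, Module.Finite k (S i)] [∀ i, AddCommGroup (M i)] [∀ i, Module k (M i)]
    [∀ i, Module (S i) (M i)] [∀ i, IsScalarTower k (S i) (M i)]
    [∀ i, Module.Finite (S i) (M i)] (σ : Equiv.Perm (Fin r)),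
    (∀ i, PartialCotilting (S i) (M i)) →
    (∀ i, Nonempty (S (σ i) ≃ₐ[k] (Module.End (S i) (M i))ᵐᵒᵖ)) → ∀ i, Cotilting (S i) (M i)

theorem result.{u} (k : Type u) [Field k] :
    (GSC k ↔ SBOne k) ∧ (GSC k ↔ SBCycle k) ∧
    ∀ (S M : Type u) [Ring S] [Algebra k S] [Module.Finite k S] [AddCommGroup M] [Module k M]
      [Module S M] [IsScalarTower k S M] [Module.Finite S M] [Module Sᵐᵒᵖ M]
      [SMulCommClass S Sᵐᵒᵖ M] [IsScalarTower k Sᵐᵒᵖ M],
      (∀ f : M →ₗ[S] M, ∃! s : S, ∀ m, f m = op s • m) → PartialCotilting S M →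
      idLeft (TrivSqZeroExt S M) = injectiveDimension (ModuleCat.of S M) ∧
      (idRight (TrivSqZeroExt S M) = ⊤ ↔ ¬ Cotilting S M) := by
  have h12 : GSC k → SBOne k := fun h S M _ _ _ _ _ _ _ _ hM he =>
    sb_of_gsc k (fun A _ _ _ hA => fun hr => hA ((h A).2 hr)) S M hM he
  have h23 : SBOne k → SBCycle k := fun h r S M _ _ _ _ _ _ _ _ σ hM he i =>
    cycle_of_one k h S M σ hM he i
  have h32 : SBCycle k → SBOne k := fun h S M _ _ _ _ _ _ _ _ hM he =>
    h 1 (fun _ => S) (fun _ => M) (Equiv.refl _) (fun _ => hM) (fun _ => he) 0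
  have h21 : SBOne k → GSC k := fun h A _ _ _ => not_iff_not.1 (gsc_of_sb k h A)
  refine ⟨⟨h12, h21⟩, ⟨fun h => h23 (h12 h), fun h => h21 (h32 h)⟩, ?_⟩
  intro S M _ _ _ _ _ _ _ _ _ _ _ hf hM
  have hb : Function.Bijective (rho S M) := by
    constructor
    · intro s t hst
      obtain ⟨v, -, hv⟩ := hf (rho S M s)
      rw [hv s fun m => rfl, hv t fun m => by rw [hst]; rfl]
    · intro f
      obtain ⟨s, hs, -⟩ := hf f
      exact ⟨s, LinearMap.ext fun m => (hs m).symm⟩
  refine ⟨idLeft_eq hb hM.2, ?_⟩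
  rw [← not_iff_not, not_not]
  exact (idRight_iff k hb hM.2).trans ⟨fun h => ⟨hM, h⟩, fun h => h.2⟩

end Pool.Agent.Results.MP_b750b1_al.SchroederBernstein
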